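import Pool.Agent.E8helper92.FS.Stm

/-!
# Bounded gaps by compactness
-/

set_option autoImplicit false

namespace Pool.Agent.E8helper47.FS

open Pool.Agent.Helper894.FS Pool.Agent.E8helper92.FS

theorem gap : S_GAP := by
  classical
  intro A _ F n W hW
  let _ : TopologicalSpace A := ⊥
  have _ : DiscreteTopology A := ⟨rfl⟩
  have hcl : IsClosed (SF F) := by
    have e : SF F = ⋂ w ∈ F, ⋂ m : ℤ, {x | ∀ (i : ℕ) (h : i < w.length), x (m + i) = w[i]}ᶜ := by
      ext x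
      simp only [SF, Occurs, Set.mem_ofPred_eq, Set.mem_iInter, Set.mem_compl_iff, not_exists]
    rw [e]
    refine isClosed_biInter fun w _ => isClosed_iInter fun m => IsOpen.isClosed_compl ?_
    have e2 : {x : ℤ → A | ∀ (i : ℕ) (h : i < w.length), x (m + i) = w[i]} =
        ⋂ i : Fin w.length, {x | x (m + ((i : ℕ) : ℤ)) = w[(i : ℕ)]} := by
      ext x
      simp only [Set.mem_ofPred_eq, Set.mem_iInter]
      exact ⟨fun h i => h i i.2, fun h i hi => h ⟨i, hi⟩⟩
    rw [e2]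
    refine isOpen_iInter_of_finite fun i => ?_
    exact (isOpen_discrete {a : A | a = w[(i : ℕ)]}).preimage
      (continuous_apply (m + ((i : ℕ) : ℤ)) : Continuous fun x : ℤ → A => x (m + ((i : ℕ) : ℤ)))
  have hcpt : IsCompact (SF F) := hcl.isCompact
  have hopen : ∀ k : ℤ, IsOpen {x : ℤ → A | ∃ w ∈ W, At w x k} := by
    intro k
    have e : {x : ℤ → A | ∃ w ∈ W, At w x k} =
        ⋃ w ∈ W, ⋂ i : Fin n, {x | x (k + ((i : ℕ) : ℤ)) = w i} := by
      ext x
      simp only [Set.mem_ofPred_eq, Set.mem_iUnion, Set.mem_iInter, exists_prop]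
      exact Iff.rfl
    rw [e]
    refine isOpen_biUnion fun w _ => isOpen_iInter_of_finite fun i => ?_
    exact (isOpen_discrete {a : A | a = w i}).preimage
      (continuous_apply (k + ((i : ℕ) : ℤ)) : Continuous fun x : ℤ → A => x (k + ((i : ℕ) : ℤ)))
  obtain ⟨t, ht⟩ := hcpt.elim_finite_subcover (fun k : ℤ => {x : ℤ → A | ∃ w ∈ W, At w x k}) hopen (by
    intro x hx
    obtain ⟨w, hw, k, hk⟩ := hW x hx
    exact Set.mem_iUnion.2 ⟨k, w, hw, hk⟩)
  refine ⟨∑ k ∈ t, k.natAbs, fun x hx => ?_⟩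
  have h1 := ht hx
  rw [Set.mem_iUnion₂] at h1
  obtain ⟨k, hk, w, hw, hwk⟩ := h1
  refine ⟨w, hw, k, ?_, hwk⟩
  have h2 : k.natAbs ≤ ∑ k ∈ t, k.natAbs :=
    Finset.single_le_sum (f := fun k : ℤ => k.natAbs) (fun _ _ => Nat.zero_le _) hk
  rw [Int.abs_eq_natAbs]
  exact_mod_cast h2

end Pool.Agent.E8helper47.FS
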